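import Pool.Agent.Helper44.PB.VLINE
import Pool.Agent.Helper38.WY.Goals3

/-!
# Project WY: the invariant line (`F_LINE`), packet WY-F_LINE (helper16)
-/

set_option autoImplicit false
set_option linter.unusedSectionVars false

namespace Pool.Agent.Helper16.WY

open NumberField Polynomial Module IsDedekindDomain
open Pool.Agent.Helper51.RP Pool.Agent.Helper42.RD Pool.Agent.Helper42.PP Pool.Agent.Helper42.PP1
open Pool.Agent.Helper42.PB Pool.Agent.Helper76.PB Pool.Agent.Helper44.PB Pool.Agent.Helper38.WY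
open Pool.Agent.Helper40.RS (bel gw val_smul bel_smul)
open Pool.Agent.Helper40.RD (valW ordW bel_of_above)
open Pool.Agent.Helper32.PP (val_gal bel_gw norm_coe e_ne prod_lt prod_le' bel_bel mem_up)
open Pool.Agent.Helper96.PB (mem_upZ van_of_split)

section galois

variable {K E : Type} [Field K] [NumberField K] [Field E] [NumberField E] [Algebra K E]
  [IsGalois K E] {p : ℕ} [hp : Fact p.Prime]

/-- The composition of a functional of local nature with the norm. -/
theorem kil_norm' (S : Finset (HeightOneSpectrum (𝓞 K))) {σ₀ : Kˣ → ZMod p}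
    (h : Kil p (S : Set (HeightOneSpectrum (𝓞 K))) σ₀) :
    Kil p (up E S) (fun x : Eˣ => σ₀ (nrm K E x)) := by
  refine ⟨fun x y => ?_, fun x hx => ?_, fun x hx => ?_⟩
  · show σ₀ (nrm K E (x * y)) = _
    rw [map_mul, h.hom]
  · apply h.loc
    obtain ⟨y, hy⟩ := hx
    refine ⟨nrm K E y, fun v hv => ?_⟩
    obtain ⟨W, rfl⟩ := ex_bel (L := E) v
    have hup : ∀ g : E ≃ₐ[K] E, gw g⁻¹ W ∈ up E S := fun g => by
      rw [gw_up, mem_up]
      exact hv
    have e0 : ((nrm K E x : Kˣ) : K) * ((nrm K E y : Kˣ) : K) ^ p - 1 =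
        ((nrm K E (x * y ^ p) : Kˣ) : K) - 1 := by
      rw [map_mul, map_pow, Units.val_mul, Units.val_pow_eq_pow_val]
    have e1 : ∀ g : E ≃ₐ[K] E, g ((x * y ^ p : Eˣ) : E) - 1 = g (((x * y ^ p : Eˣ) : E) - 1) :=
      fun g => by rw [map_sub, map_one]
    have e2 : ∀ g : E ≃ₐ[K] E, W.valuation E (p : E) = (gw g⁻¹ W).valuation E (p : E) :=
      fun g => by rw [← val_gal, map_natCast g]
    have hp1 : W.valuation E (p : E) ≤ 1 := by
      have h5 : W.valuation E (algebraMap (𝓞 E) E (p : 𝓞 E)) ≤ 1 := W.valuation_le_one (p : 𝓞 E)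
      rwa [map_natCast] at h5
    have h2 : W.valuation E (algebraMap K E (((nrm K E (x * y ^ p) : Kˣ) : K) - 1)) < 1 := by
      rw [map_sub, map_one, norm_coe]
      refine prod_lt W _ _ fun g _ => ?_
      rw [e1, val_gal]
      have h3 := (hy (gw g⁻¹ W) (hup g)).1
      rwa [Units.val_mul, Units.val_pow_eq_pow_val]
    have h6 : W.valuation E (algebraMap K E (((nrm K E (x * y ^ p) : Kˣ) : K) - 1)) ≤
        W.valuation E (p : E) ^ 3 := by
      rw [map_sub, map_one, norm_coe]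
      refine prod_le' W _ _ _ (pow_le_one₀ zero_le hp1) fun g _ => ?_
      rw [e1, val_gal, e2 g]
      have h3 := (hy (gw g⁻¹ W) (hup g)).2
      rwa [Units.val_mul, Units.val_pow_eq_pow_val]
    have e3 : (p : E) = algebraMap K E (p : K) := by rw [map_natCast]
    rw [e0]
    constructor
    · rw [valW] at h2
      exact (pow_lt_one_iff (e_ne W)).1 h2
    · rw [e3, valW, valW, pow_right_comm _ _ 3] at h6
      exact (pow_le_pow_iff_left₀ zero_le zero_le (e_ne W)).1 h6
  · apply h.unit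
    intro v hv
    obtain ⟨W, rfl⟩ := ex_bel (L := E) v
    have h2 : W.valuation E (algebraMap K E ((nrm K E x : Kˣ) : K)) = 1 := by
      rw [norm_coe, map_prod]
      refine Finset.prod_eq_one fun g _ => ?_
      rw [val_gal]
      refine hx _ fun h0 => hv ?_
      rw [gw_up, mem_up] at h0
      exact h0
    rw [valW] at h2
    exact (pow_eq_one_iff.1 h2).resolve_right (e_ne W)

end galois

theorem f_line (h1 : F_LIF) (h2 : X_DN) (h3 : F_FI) : F_LINE := by
  intro p hp K M K₁ M₁ J M₂ _ _ _ _ _ _ _ _ _ _ _ _ _ _ _ _ _ _ _ _ _ _ _ _ ε δ P a₀ hB B D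
  have := hB.sit.st1
  have := hB.sit.st2
  have := hB.sit.gM
  have := hB.sit.gMK
  have := hB.t1
  have := hB.t4
  have := hB.gJ
  have := hB.gM₂
  have := hB.cycJ
  have hG12 : IsGalois M₁ M₂ := IsGalois.tower_top_of_isGalois K M₁ M₂
  have hGJ2 : IsGalois J M₂ := IsGalois.tower_top_of_isGalois K J M₂
  have hcop : (finrank K M₁).Coprime p := by
    rw [← finrank_mul_finrank K M M₁]
    exact Nat.Coprime.mul_left hB.sit.copm hB.sit.c1
  have hinj : Function.Injective (resJ K M₁ J M₂) := resJ_inj hB.lin₂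
  obtain ⟨hZfin, -, hab', -⟩ := Pool.Agent.Helper16.PP.p_upr p K M₁ B.S
  have hab : abP p M₁ ⊆ up M₁ B.S := fun w hw => hab' B.abp w hw
  have hunr2 : UnrZ K M₂ (B.S : Set (HeightOneSpectrum (𝓞 K))) :=
    fun v hv W hW x => D.unr v hv W hW x
  have hunr12 : UnrZ M₁ M₂ (up M₁ B.S) := unrZ_up hunr2
  have hprM₁ : PrZ M₁ (up M₁ B.S) := B.prMK
  have hupup : upZ M₂ (up M₁ B.S) = up M₂ B.S := upZ_upZ _
  have hprM₂ : PrZ M₂ (upZ M₂ (up M₁ B.S)) := by
    rw [hupup]
    exact pr_equiv (IntermediateField.topEquiv (F := K) (E := M₂)) B.S (D.pr ⊤)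
  obtain ⟨l, hl⟩ := hB.degJ
  rcases l with _ | l
  · -- `M₂ = M₁`
    have h4 := deg_eq hl hcop hinj
    rw [pow_zero] at h4
    refine ⟨fun _ => 0, kil_zero _, fun _ _ => rfl, fun f _ hN => ⟨0, fun x => ?_⟩⟩
    have h5 := hN (inc M₁ M₂ x)
    rw [nrm_base, h4, pow_one] at h5
    rw [h5, zero_mul]
  · obtain ⟨J₁, E₁, hJ₁, hE₁, hGJ₁, hGE₁, hJE⟩ := subfields hl hcop hinj
    have hcyc : IsCyclic (M₂ ≃ₐ[M₁] M₂) := isCyclic_of_injective _ hinj
    have hunrE : UnrZ M₁ E₁ (up M₁ B.S) := unrZ_low hunr12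
    have hprE : PrZ E₁ (upZ E₁ (up M₁ B.S)) := by
      have h5 : upZ E₁ (up M₁ B.S) = up E₁ B.S := upZ_upZ _
      rw [h5]
      let e : (E₁.restrictScalars K) ≃ₐ[K] E₁ :=
        { toFun := fun x => ⟨x.1, x.2⟩
          invFun := fun x => ⟨x.1, x.2⟩
          left_inv := fun _ => rfl
          right_inv := fun _ => rfl
          map_mul' := fun _ _ => rfl
          map_add' := fun _ _ => rfl
          commutes' := fun _ => rfl }
      exact pr_equiv e B.S (D.pr (E₁.restrictScalars K))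
    have hvan : ∀ f : M₁ˣ → ZMod p, Kil p (up M₁ B.S) f → (∀ y : M₂ˣ, f (nrm M₁ M₂ y) = 0) →
        ∀ w ∈ SplZ E₁ (up M₁ B.S), Van (up M₁ B.S) f w :=
      h1 p M₁ E₁ M₂ (algebraMap K₁ M₁ ε)
        (hB.sit.prim.map_of_injective (algebraMap K₁ M₁).injective) hE₁
        ⟨l + 1, deg_eq hl hcop hinj⟩ _ hZfin hab hunr12 hprM₁ hprM₂
    have hline := h2 p M₁ E₁ hE₁ _ hZfin hab hunrE hprM₁
    by_cases hp2 : p = 2
    · by_cases hV : ∃ f : M₁ˣ → ZMod p, Kil p (up M₁ B.S) f ∧ (∀ y : M₂ˣ, f (nrm M₁ M₂ y) = 0) ∧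
        ∃ x, f x ≠ 0
      · obtain ⟨s, hs, hsN, hs0⟩ := hV
        refine ⟨s, hs, fun g x => ?_, fun f hf hfN =>
          hline s f hs hf (hvan s hs hsN) (hvan f hf hfN) hs0⟩
        obtain ⟨c, hc⟩ := hline s (fun x => s (act g x)) hs (kil_act B.S hs g) (hvan s hs hsN)
          (hvan _ (kil_act B.S hs g) (fun y => by
            obtain ⟨g', hg'⟩ : ∃ g' : M₂ ≃ₐ[K] M₂, ∀ x : M₁,
                g' (algebraMap M₁ M₂ x) = algebraMap M₁ M₂ (g x) :=
              ⟨g.liftNormal M₂, fun x => AlgEquiv.liftNormal_commutes g M₂ x⟩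
            obtain ⟨-, h5, -⟩ := Pool.Agent.Helper32.PP.b_nor Pool.Agent.Helper16.PP.p_upr p K M₁ M₂
              B.S
            rw [← (h5 g' g hg' y).1]
            exact hsN _)) hs0
        have hc0 : c ≠ 0 := by
          rintro rfl
          obtain ⟨x₀, hx₀⟩ := hs0
          apply hx₀
          have h6 := hc (act g⁻¹ x₀)
          rw [zero_mul] at h6
          have h7 : act g (act g⁻¹ x₀) = x₀ := by
            apply Units.ext
            show g (g⁻¹ (x₀ : M₁)) = x₀
            show (g * g⁻¹) (x₀ : M₁) = x₀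
            rw [mul_inv_cancel]
            rfl
          have h6' : s (act g (act g⁻¹ x₀)) = 0 := h6
          rwa [h7] at h6'
        have hc1 : c = 1 := by
          subst hp2
          exact Fin.eq_one_of_ne_zero c hc0
        have h8 := hc x
        rw [hc1, one_mul] at h8
        exact h8
      · push Not at hV
        exact ⟨fun _ => 0, kil_zero _, fun _ _ => rfl, fun f hf hN => ⟨0, fun x => by
          rw [hV f hf hN x, zero_mul]⟩⟩
    · have hunrJ : UnrZ K J₁ (B.S : Set (HeightOneSpectrum (𝓞 K))) :=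
        unrZ_low (L := J) (unrZ_low (E := J) hunr2)
      have hprK : PrZ K (B.S : Set (HeightOneSpectrum (𝓞 K))) := by
        intro n
        obtain ⟨x, hx⟩ := pr_equiv (IntermediateField.botEquiv K M₂) B.S (D.pr ⊥) n
        exact ⟨x, fun w hw => hx w fun h0 => hw ((up_self B.S w).1 h0)⟩
      obtain ⟨σ₀, hσ, ⟨x₀, hx₀⟩, hσN, -⟩ := h3 p K J₁ hJ₁ (fun h => absurd h hp2)
        (B.S : Set (HeightOneSpectrum (𝓞 K))) B.S.finite_toSet (fun v hv => B.abp v hv) hunrJ hprK
      have hs := kil_norm' (E := M₁) B.S hσ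
      have hsE : ∀ y : (E₁ : Type)ˣ, σ₀ (nrm K M₁ (nrm M₁ E₁ y)) = 0 := by
        intro y
        obtain ⟨z, hz⟩ := norm_sub J₁ E₁ hJE y
        rw [hz, hσN]
      have hsvan : ∀ w ∈ SplZ E₁ (up M₁ B.S),
          Van (up M₁ B.S) (fun x : M₁ˣ => σ₀ (nrm K M₁ x)) w :=
        fun w hw => van_of_split p hZfin hprE hs hsE hw
      refine ⟨fun x : M₁ˣ => σ₀ (nrm K M₁ x), hs, fun g x => ?_, fun f hf hfN =>
        hline _ f hs hf hsvan (hvan f hf hfN) ⟨inc K M₁ x₀, ?_⟩⟩
      · show σ₀ (nrm K M₁ (act g x)) = _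
        rw [norm_act]
      · show σ₀ (nrm K M₁ (inc K M₁ x₀)) ≠ 0
        rw [nrm_base, hom_pow hσ.hom]
        refine mul_ne_zero ?_ hx₀
        rw [Ne, ZMod.natCast_eq_zero_iff]
        intro h5
        have h6 := Nat.Coprime.eq_one_of_dvd hcop.symm h5
        exact hp.out.one_lt.ne' h6

end Pool.Agent.Helper16.WY
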